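import Mathlib

open MeasureTheory Filter Topology Set Metric
open scoped ENNReal NNReal ComplexConjugate

namespace Pool.Agent.Results.MP_6004b5_an.HarmonicArea

/-- The unit disk. -/
def disk : Set ℂ := ball 0 1

/-- Sense-preserving univalent harmonic self-mappings of the unit disk. -/
def IsHarmonicUnivalentSelfMap (f : ℂ → ℂ) : Prop :=
  ∃ h g : ℂ → ℂ, DifferentiableOn ℂ h disk ∧ DifferentiableOn ℂ g disk ∧
    (∀ z ∈ disk, f z = h z + conj (g z)) ∧
    (∀ z ∈ disk, 0 < ‖deriv h z‖ ^ 2 - ‖deriv g z‖ ^ 2) ∧ InjOn f disk ∧ MapsTo f disk disk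

/-- Conformal automorphisms of the unit disk. -/
def IsAutomorphism (φ : ℂ → ℂ) : Prop :=
  ∃ (θ : ℝ) (a : ℂ), ‖a‖ < 1 ∧
    ∀ z, φ z = Complex.exp (θ * Complex.I) * ((z - a) / (1 - conj a * z))

/-! ### The building blocks -/

/-- `log ((1 + ζ) / (1 - ζ))`. -/
noncomputable def lg (ζ : ℂ) : ℂ := Complex.log ((1 + ζ) / (1 - ζ))

lemma one_sub_ne {ζ : ℂ} (h : ‖ζ‖ < 1) : 1 - ζ ≠ 0 := by
  intro h0
  have : ζ = 1 := by linear_combination -h0
  rw [this, norm_one] at h
  exact lt_irrefl _ h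

lemma one_add_ne {ζ : ℂ} (h : ‖ζ‖ < 1) : 1 + ζ ≠ 0 := by
  intro h0
  have : ζ = -1 := by linear_combination h0
  rw [this, norm_neg, norm_one] at h
  exact lt_irrefl _ h

lemma normSq_lt {ζ : ℂ} (h : ‖ζ‖ < 1) : Complex.normSq ζ < 1 := by
  rw [Complex.normSq_eq_norm_sq]
  nlinarith [norm_nonneg ζ]

lemma re_pos {ζ : ℂ} (h : ‖ζ‖ < 1) : 0 < ((1 + ζ) / (1 - ζ)).re := by
  have h1 := one_sub_ne h
  have h2 := normSq_lt h
  rw [Complex.div_re, ← add_div]
  refine div_pos ?_ (Complex.normSq_pos.2 h1)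
  rw [Complex.normSq_apply] at h2
  simp only [Complex.add_re, Complex.one_re, Complex.sub_re, Complex.add_im, Complex.one_im,
    Complex.sub_im]
  nlinarith

lemma lg_im {ζ : ℂ} (h : ‖ζ‖ < 1) : |(lg ζ).im| < Real.pi / 2 := by
  rw [lg, Complex.log_im]
  exact Complex.abs_arg_lt_pi_div_two_iff.2 (Or.inl (re_pos h))

lemma exp_lg {ζ : ℂ} (h : ‖ζ‖ < 1) : Complex.exp (lg ζ) = (1 + ζ) / (1 - ζ) := by
  rw [lg, Complex.exp_log]
  exact div_ne_zero (one_add_ne h) (one_sub_ne h)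

lemma hasDerivAt_lg {ζ : ℂ} (h : ‖ζ‖ < 1) : HasDerivAt lg (2 / (1 - ζ ^ 2)) ζ := by
  have h1 := one_sub_ne h
  have h2 := one_add_ne h
  have h3 : HasDerivAt (fun ζ : ℂ => (1 + ζ) / (1 - ζ)) (2 / (1 - ζ) ^ 2) ζ := by
    have e1 : HasDerivAt (fun ζ : ℂ => 1 + ζ) 1 ζ := (hasDerivAt_id ζ).const_add 1
    have e2 : HasDerivAt (fun ζ : ℂ => 1 - ζ) (-1) ζ := (hasDerivAt_id ζ).const_sub 1
    refine (e1.div e2 h1).congr_deriv ?_
    congr 1
    ring
  have h4 : (1 + ζ) / (1 - ζ) ∈ Complex.slitPlane := Or.inl (re_pos h)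
  refine (h3.clog h4).congr_deriv ?_
  have h5 : 1 - ζ ^ 2 = (1 - ζ) * (1 + ζ) := by ring
  rw [h5]
  field_simp

/-- The cosine of the angle. -/
noncomputable def κ : ℝ := 399 / 401

/-- The sine of the angle. -/
noncomputable def σ : ℝ := 40 / 401

/-- The unimodular number `κ + i σ`. -/
noncomputable def c : ℂ := ⟨κ, σ⟩

/-- Its conjugate. -/
noncomputable def cb : ℂ := ⟨κ, -σ⟩

lemma c_mul_cb : c * cb = 1 := by
  apply Complex.ext
  · simp only [Complex.mul_re, c, cb, Complex.one_re, κ, σ]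
    norm_num
  · simp only [Complex.mul_im, c, cb, Complex.one_im, κ, σ]
    ring

lemma c_add_cb : c + cb = 2 * κ := by
  apply Complex.ext
  · simp [c, cb]
    ring
  · simp [c, cb]

lemma c_sub_cb : c - cb = 2 * σ * Complex.I := by
  apply Complex.ext
  · simp [c, cb]
  · simp [c, cb]
    ring

lemma norm_c : ‖c‖ = 1 := by
  have h : Complex.normSq c = 1 := by
    rw [Complex.normSq_apply]
    simp only [c, κ, σ]
    norm_num
  rw [Complex.normSq_eq_norm_sq] at h
  nlinarith [norm_nonneg c]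

lemma norm_cb : ‖cb‖ = 1 := by
  have h : Complex.normSq cb = 1 := by
    rw [Complex.normSq_apply]
    simp only [cb, κ, σ]
    norm_num
  rw [Complex.normSq_eq_norm_sq] at h
  nlinarith [norm_nonneg cb]

lemma norm_c_mul (z : ℂ) : ‖c * z‖ = ‖z‖ := by rw [norm_mul, norm_c, one_mul]

lemma norm_cb_mul (z : ℂ) : ‖cb * z‖ = ‖z‖ := by rw [norm_mul, norm_cb, one_mul]

/-- The product `(1 - c² z²)(1 - c̄² z²)`. -/
noncomputable def D (z : ℂ) : ℂ := (1 - (c * z) ^ 2) * (1 - (cb * z) ^ 2)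

lemma D_eq (z : ℂ) : D z = (1 + z ^ 2) ^ 2 - 4 * (κ : ℂ) ^ 2 * z ^ 2 := by
  have h1 := c_mul_cb
  have h2 := c_add_cb
  have h3 : (κ : ℂ) = (c + cb) / 2 := by rw [h2]; ring
  rw [D, h3]
  linear_combination (z ^ 4 * (c * cb + 1) + 2 * z ^ 2) * h1

lemma one_sub_sq_ne {ζ : ℂ} (h : ‖ζ‖ < 1) : 1 - ζ ^ 2 ≠ 0 := by
  have : 1 - ζ ^ 2 = (1 - ζ) * (1 + ζ) := by ring
  rw [this]
  exact mul_ne_zero (one_sub_ne h) (one_add_ne h)

lemma D_ne {z : ℂ} (h : ‖z‖ < 1) : D z ≠ 0 :=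
  mul_ne_zero (one_sub_sq_ne (by rwa [norm_c_mul])) (one_sub_sq_ne (by rwa [norm_cb_mul]))

/-- The analytic function whose imaginary part is the imaginary part of the harmonic map. -/
noncomputable def Φ (z : ℂ) : ℂ := (1 / Real.pi : ℂ) * (lg (c * z) + lg (cb * z))

/-- The analytic function whose real part is the real part of the harmonic map. -/
noncomputable def Ψ (z : ℂ) : ℂ := (-Complex.I / Real.pi : ℂ) * (lg (c * z) - lg (cb * z))

lemma hasDerivAt_lg_mul {a z : ℂ} (h : ‖a * z‖ < 1) :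
    HasDerivAt (fun z => lg (a * z)) (2 * a / (1 - (a * z) ^ 2)) z := by
  have h1 : HasDerivAt (fun z : ℂ => a * z) a z := by
    simpa using (hasDerivAt_id z).const_mul a
  refine ((hasDerivAt_lg h).comp z h1).congr_deriv ?_
  ring

lemma hasDerivAt_Φ {z : ℂ} (h : ‖z‖ < 1) :
    HasDerivAt Φ ((4 * κ / Real.pi : ℂ) * (1 - z ^ 2) / D z) z := by
  have hc : ‖c * z‖ < 1 := by rwa [norm_c_mul]
  have hcb : ‖cb * z‖ < 1 := by rwa [norm_cb_mul]
  have n1 := one_sub_sq_ne hc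
  have n2 := one_sub_sq_ne hcb
  have hpi : (Real.pi : ℂ) ≠ 0 := by exact_mod_cast Real.pi_ne_zero
  refine (((hasDerivAt_lg_mul hc).add (hasDerivAt_lg_mul hcb)).const_mul
    (1 / Real.pi : ℂ)).congr_deriv ?_
  have h1 := c_mul_cb
  have h2 : (κ : ℂ) = (c + cb) / 2 := by rw [c_add_cb]; ring
  rw [D, h2, div_add_div _ _ n1 n2, ← mul_div_assoc]
  congr 1
  field_simp
  linear_combination (-(4 * z ^ 2 * (c + cb))) * h1

lemma hasDerivAt_Ψ {z : ℂ} (h : ‖z‖ < 1) :
    HasDerivAt Ψ ((4 * σ / Real.pi : ℂ) * (1 + z ^ 2) / D z) z := by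
  have hc : ‖c * z‖ < 1 := by rwa [norm_c_mul]
  have hcb : ‖cb * z‖ < 1 := by rwa [norm_cb_mul]
  have n1 := one_sub_sq_ne hc
  have n2 := one_sub_sq_ne hcb
  have hpi : (Real.pi : ℂ) ≠ 0 := by exact_mod_cast Real.pi_ne_zero
  refine (((hasDerivAt_lg_mul hc).sub (hasDerivAt_lg_mul hcb)).const_mul
    (-Complex.I / Real.pi : ℂ)).congr_deriv ?_
  have h1 := c_mul_cb
  have h2 : (σ : ℂ) = (c - cb) / (2 * Complex.I) := by
    rw [c_sub_cb]
    field_simp
  have hI : Complex.I ≠ 0 := Complex.I_ne_zero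
  rw [D, h2, div_sub_div _ _ n1 n2, ← mul_div_assoc]
  congr 1
  field_simp
  rw [Complex.I_sq]
  linear_combination (4 * z ^ 2 * (c - cb)) * h1

/-- The derivative of `Φ`. -/
noncomputable def dΦ (z : ℂ) : ℂ := (4 * κ / Real.pi : ℂ) * (1 - z ^ 2) / D z

/-- The derivative of `Ψ`. -/
noncomputable def dΨ (z : ℂ) : ℂ := (4 * σ / Real.pi : ℂ) * (1 + z ^ 2) / D z

/-- The analytic part of the harmonic map. -/
noncomputable def H (z : ℂ) : ℂ := (Ψ z + Φ z) / 2

/-- The conjugate of the antianalytic part of the harmonic map. -/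
noncomputable def G (z : ℂ) : ℂ := (Ψ z - Φ z) / 2

/-- The harmonic map. -/
noncomputable def f (z : ℂ) : ℂ := H z + conj (G z)

lemma f_re (z : ℂ) : (f z).re = (Ψ z).re := by
  have h1 : (H z).re = ((Ψ z).re + (Φ z).re) / 2 := by
    rw [H, show (Ψ z + Φ z) / 2 = (Ψ z + Φ z) / ((2 : ℝ) : ℂ) by norm_num, Complex.div_ofReal_re,
      Complex.add_re]
  have h2 : (G z).re = ((Ψ z).re - (Φ z).re) / 2 := by
    rw [G, show (Ψ z - Φ z) / 2 = (Ψ z - Φ z) / ((2 : ℝ) : ℂ) by norm_num, Complex.div_ofReal_re,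
      Complex.sub_re]
  rw [f, Complex.add_re, Complex.conj_re, h1, h2]
  ring

lemma f_im (z : ℂ) : (f z).im = (Φ z).im := by
  have h1 : (H z).im = ((Ψ z).im + (Φ z).im) / 2 := by
    rw [H, show (Ψ z + Φ z) / 2 = (Ψ z + Φ z) / ((2 : ℝ) : ℂ) by norm_num, Complex.div_ofReal_im,
      Complex.add_im]
  have h2 : (G z).im = ((Ψ z).im - (Φ z).im) / 2 := by
    rw [G, show (Ψ z - Φ z) / 2 = (Ψ z - Φ z) / ((2 : ℝ) : ℂ) by norm_num, Complex.div_ofReal_im,
      Complex.sub_im]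
  rw [f, Complex.add_im, Complex.conj_im, h1, h2]
  ring

lemma hasDerivAt_H {z : ℂ} (h : ‖z‖ < 1) : HasDerivAt H ((dΨ z + dΦ z) / 2) z :=
  ((hasDerivAt_Ψ h).add (hasDerivAt_Φ h)).div_const 2

lemma hasDerivAt_G {z : ℂ} (h : ‖z‖ < 1) : HasDerivAt G ((dΨ z - dΦ z) / 2) z :=
  ((hasDerivAt_Ψ h).sub (hasDerivAt_Φ h)).div_const 2

lemma jac_identity (a b : ℂ) : ‖(a + b) / 2‖ ^ 2 - ‖(a - b) / 2‖ ^ 2 = (a * conj b).re := by
  rw [← Complex.normSq_eq_norm_sq, ← Complex.normSq_eq_norm_sq, map_div₀, map_div₀]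
  have : Complex.normSq 2 = 4 := by
    rw [Complex.normSq_ofNat]
    norm_num
  rw [this, Complex.normSq_apply, Complex.normSq_apply]
  simp only [Complex.add_re, Complex.add_im, Complex.sub_re, Complex.sub_im, Complex.mul_re,
    Complex.conj_re, Complex.conj_im]
  ring

/-- The Jacobian of the harmonic map. -/
noncomputable def J (z : ℂ) : ℝ :=
  16 * κ * σ / Real.pi ^ 2 * (1 - Complex.normSq z ^ 2) / Complex.normSq (D z)

lemma re_identity (z : ℂ) : ((1 + z ^ 2) * conj (1 - z ^ 2)).re = 1 - Complex.normSq z ^ 2 := by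
  rw [Complex.normSq_apply]
  simp only [Complex.mul_re, Complex.add_re, Complex.one_re, Complex.add_im, Complex.one_im,
    Complex.conj_re, Complex.conj_im, Complex.sub_re, Complex.sub_im, sq, Complex.mul_im]
  ring

lemma J_eq (z : ℂ) : (dΨ z * conj (dΦ z)).re = J z := by
  have h1 : dΨ z * conj (dΦ z) = ((16 * κ * σ / Real.pi ^ 2 : ℝ) : ℂ) *
      ((1 + z ^ 2) * conj (1 - z ^ 2)) / ((Complex.normSq (D z) : ℝ) : ℂ) := by
    rw [dΨ, dΦ, Complex.normSq_eq_conj_mul_self, map_div₀, map_mul, map_div₀, map_mul,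
      Complex.conj_ofReal, Complex.conj_ofReal, map_ofNat]
    push_cast
    rw [div_mul_div_comm, mul_comm (D z)]
    congr 1
    ring
  rw [h1, Complex.div_ofReal_re, Complex.re_ofReal_mul, re_identity, J]

lemma κσ_pos : 0 < κ ∧ 0 < σ := by
  constructor
  · unfold κ
    norm_num
  · unfold σ
    norm_num

lemma J_pos {z : ℂ} (h : ‖z‖ < 1) : 0 < J z := by
  have h1 := normSq_lt h
  have h2 : 0 ≤ Complex.normSq z := Complex.normSq_nonneg z
  obtain ⟨h3, h4⟩ := κσ_pos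
  have h5 : 0 < Complex.normSq (D z) := Complex.normSq_pos.2 (D_ne h)
  have h6 : 0 < 1 - Complex.normSq z ^ 2 := by nlinarith
  have := Real.pi_pos
  unfold J
  positivity

/-! ### The range -/

lemma Φ_im {z : ℂ} : (Φ z).im = ((lg (c * z)).im + (lg (cb * z)).im) / Real.pi := by
  rw [Φ, show (1 / Real.pi : ℂ) = ((1 / Real.pi : ℝ) : ℂ) by push_cast; rfl,
    Complex.im_ofReal_mul, Complex.add_im]
  ring

lemma Ψ_re {z : ℂ} : (Ψ z).re = ((lg (c * z)).im - (lg (cb * z)).im) / Real.pi := by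
  have : (Ψ z) = ((1 / Real.pi : ℝ) : ℂ) * (-Complex.I * (lg (c * z) - lg (cb * z))) := by
    rw [Ψ]
    push_cast
    ring
  rw [this, Complex.re_ofReal_mul]
  simp only [Complex.mul_re, Complex.neg_re, Complex.I_re, Complex.neg_im, Complex.I_im,
    Complex.sub_re, Complex.sub_im]
  ring

lemma Φ_im_abs {z : ℂ} (h : ‖z‖ < 1) : |(Φ z).im| < 1 := by
  have h1 := abs_lt.1 (lg_im (ζ := c * z) (by rwa [norm_c_mul]))
  have h2 := abs_lt.1 (lg_im (ζ := cb * z) (by rwa [norm_cb_mul]))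
  have hpi := Real.pi_pos
  rw [Φ_im, abs_lt, lt_div_iff₀ hpi, div_lt_iff₀ hpi]
  constructor <;> linarith

lemma norm_f {z : ℂ} (h : ‖z‖ < 1) : ‖f z‖ < 1 := by
  have h1 := abs_lt.1 (lg_im (ζ := c * z) (by rwa [norm_c_mul]))
  have h2 := abs_lt.1 (lg_im (ζ := cb * z) (by rwa [norm_cb_mul]))
  have hpi := Real.pi_pos
  have h3 : Complex.normSq (f z) < 1 := by
    rw [Complex.normSq_apply, f_re, f_im, Ψ_re, Φ_im]
    set a := (lg (c * z)).im
    set b := (lg (cb * z)).im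
    have h4 : (a - b) / Real.pi * ((a - b) / Real.pi) + (a + b) / Real.pi * ((a + b) / Real.pi)
        = 2 * (a ^ 2 + b ^ 2) / Real.pi ^ 2 := by
      field_simp
      ring
    rw [h4, div_lt_one (by positivity)]
    have h5 : a ^ 2 < (Real.pi / 2) ^ 2 := sq_lt_sq' (by linarith) (by linarith)
    have h6 : b ^ 2 < (Real.pi / 2) ^ 2 := sq_lt_sq' (by linarith) (by linarith)
    nlinarith
  rw [Complex.normSq_eq_norm_sq] at h3
  nlinarith [norm_nonneg (f z)]

/-! ### Injectivity -/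

lemma exp_pi_Φ {z : ℂ} (h : ‖z‖ < 1) :
    Complex.exp (Real.pi * Φ z) * (1 + z ^ 2 - 2 * κ * z) = 1 + z ^ 2 + 2 * κ * z := by
  have hc : ‖c * z‖ < 1 := by rwa [norm_c_mul]
  have hcb : ‖cb * z‖ < 1 := by rwa [norm_cb_mul]
  have hpi : (Real.pi : ℂ) ≠ 0 := by exact_mod_cast Real.pi_ne_zero
  have h1 : (Real.pi : ℂ) * Φ z = lg (c * z) + lg (cb * z) := by
    rw [Φ]
    field_simp
  rw [h1, Complex.exp_add, exp_lg hc, exp_lg hcb]
  have n1 := one_sub_ne hc
  have n2 := one_sub_ne hcb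
  have h2 : (κ : ℂ) = (c + cb) / 2 := by rw [c_add_cb]; ring
  have h3 := c_mul_cb
  have e1 : 1 + z ^ 2 - 2 * κ * z = (1 - c * z) * (1 - cb * z) := by
    rw [h2]
    linear_combination (-z ^ 2) * h3
  have e2 : 1 + z ^ 2 + 2 * κ * z = (1 + c * z) * (1 + cb * z) := by
    rw [h2]
    linear_combination (-z ^ 2) * h3
  rw [e1, e2, div_mul_div_comm, div_mul_cancel₀ _ (mul_ne_zero n1 n2)]

/-- The auxiliary function `T(w)`. -/
noncomputable def T (w : ℂ) : ℂ :=
  (Complex.exp (Real.pi * w) - 1) / (κ * (Complex.exp (Real.pi * w) + 1))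

/-- The square root. -/
noncomputable def S (w : ℂ) : ℂ := Complex.exp (Complex.log (1 - T w ^ 2) / 2)

/-- The inverse function of `Φ`. -/
noncomputable def Z (w : ℂ) : ℂ := T w / (1 + S w)

lemma κ_ne : (κ : ℂ) ≠ 0 := by exact_mod_cast κσ_pos.1.ne'

lemma pi_mul_im (w : ℂ) : ((Real.pi : ℂ) * w).im = Real.pi * w.im := by
  rw [Complex.im_ofReal_mul]

lemma exp_add_one_ne {w : ℂ} (hw : |w.im| < 1) : Complex.exp (Real.pi * w) + 1 ≠ 0 := by
  intro h
  have hpi := Real.pi_pos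
  have h1 : Complex.exp (Real.pi * w) = Complex.exp (Real.pi * Complex.I) := by
    rw [Complex.exp_pi_mul_I]
    linear_combination h
  have hw' := abs_lt.1 hw
  have h2 := Complex.exp_inj_of_neg_pi_lt_of_le_pi (x := Real.pi * w) (y := Real.pi * Complex.I)
    (by rw [pi_mul_im]; nlinarith) (by rw [pi_mul_im]; nlinarith)
    (by rw [pi_mul_im, Complex.I_im]; linarith) (by rw [pi_mul_im, Complex.I_im]; linarith) h1
  have h3 := congrArg Complex.im h2
  rw [pi_mul_im, pi_mul_im, Complex.I_im] at h3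
  nlinarith

lemma T_rel {w : ℂ} (hw : |w.im| < 1) :
    κ * T w * (Complex.exp (Real.pi * w) + 1) = Complex.exp (Real.pi * w) - 1 := by
  have h1 := exp_add_one_ne hw
  have h2 := κ_ne
  rw [T]
  field_simp

lemma S_sq {w : ℂ} (hT : 1 - T w ^ 2 ∈ Complex.slitPlane) : S w ^ 2 = 1 - T w ^ 2 := by
  rw [S, ← Complex.exp_nat_mul]
  have : ((2 : ℕ) : ℂ) * (Complex.log (1 - T w ^ 2) / 2) = Complex.log (1 - T w ^ 2) := by
    push_cast
    ring
  rw [this, Complex.exp_log (Complex.slitPlane_ne_zero hT)]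

lemma S_re {w : ℂ} (hT : 1 - T w ^ 2 ∈ Complex.slitPlane) : 0 < (S w).re := by
  rw [S, Complex.exp_re]
  refine mul_pos (Real.exp_pos _) (Real.cos_pos_of_mem_Ioo ?_)
  have h1 : (Complex.log (1 - T w ^ 2) / 2).im = (Complex.log (1 - T w ^ 2)).im / 2 := by
    rw [show (2 : ℂ) = ((2 : ℝ) : ℂ) by norm_num, Complex.div_ofReal_im]
  rw [h1, Complex.log_im]
  have h2 := Complex.neg_pi_lt_arg (1 - T w ^ 2)
  have h3 : Complex.arg (1 - T w ^ 2) < Real.pi :=
    lt_of_le_of_ne (Complex.arg_le_pi _) (Complex.slitPlane_arg_ne_pi hT)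
  constructor <;> linarith

lemma one_add_S_ne {w : ℂ} (hT : 1 - T w ^ 2 ∈ Complex.slitPlane) : 1 + S w ≠ 0 := by
  intro h
  have h1 := congrArg Complex.re h
  rw [Complex.add_re, Complex.one_re, Complex.zero_re] at h1
  linarith [S_re hT]

lemma Z_sq {w : ℂ} (hT : 1 - T w ^ 2 ∈ Complex.slitPlane) : Z w ^ 2 * (1 + S w) = 1 - S w := by
  have h1 := one_add_S_ne hT
  have h2 := S_sq hT
  rw [Z]
  field_simp
  linear_combination h2

lemma norm_Z {w : ℂ} (hT : 1 - T w ^ 2 ∈ Complex.slitPlane) : ‖Z w‖ < 1 := by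
  have h1 := Z_sq hT
  have h2 := S_re hT
  have h3 : ‖Z w‖ ^ 2 * ‖1 + S w‖ = ‖1 - S w‖ := by
    rw [← norm_pow, ← norm_mul, h1]
  have h4 : ‖1 - S w‖ < ‖1 + S w‖ := by
    have h5 : ‖1 - S w‖ ^ 2 < ‖1 + S w‖ ^ 2 := by
      rw [← Complex.normSq_eq_norm_sq, ← Complex.normSq_eq_norm_sq, Complex.normSq_apply,
        Complex.normSq_apply]
      simp only [Complex.add_re, Complex.one_re, Complex.sub_re, Complex.add_im, Complex.one_im,
        Complex.sub_im]
      nlinarith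
    exact lt_of_pow_lt_pow_left₀ 2 (norm_nonneg _) h5
  by_contra hcon
  have h6 : 1 ≤ ‖Z w‖ ^ 2 := by
    have := not_lt.1 hcon
    nlinarith
  nlinarith [norm_nonneg (1 + S w)]

lemma Z_rel {w : ℂ} (hT : 1 - T w ^ 2 ∈ Complex.slitPlane) : 2 * Z w = T w * (1 + Z w ^ 2) := by
  have h1 := one_add_S_ne hT
  have h2 := Z_sq hT
  have h3 : Z w * (1 + S w) = T w := by
    rw [Z]
    field_simp
  have h4 : (1 + Z w ^ 2) * (1 + S w) = 2 := by linear_combination h2
  calc 2 * Z w = ((1 + Z w ^ 2) * (1 + S w)) * Z w := by rw [h4]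
    _ = T w * (1 + Z w ^ 2) := by rw [← h3]; ring

lemma one_add_sq_ne {z : ℂ} (h : ‖z‖ < 1) : 1 + z ^ 2 ≠ 0 := by
  refine one_add_ne ?_
  rw [norm_pow]
  nlinarith [norm_nonneg z]

lemma Φ_Z {w : ℂ} (hw : |w.im| < 1) (hT : 1 - T w ^ 2 ∈ Complex.slitPlane) : Φ (Z w) = w := by
  have hZ := norm_Z hT
  have h1 := exp_pi_Φ hZ
  have h2 := Z_rel hT
  have h3 := T_rel hw
  have h4 := one_add_sq_ne hZ
  have hpi := Real.pi_pos
  have hpi' : (Real.pi : ℂ) ≠ 0 := by exact_mod_cast Real.pi_ne_zero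
  have h5 : 1 - κ * T w ≠ 0 := by
    intro h0
    have h6 : (κ : ℂ) * T w = 1 := by linear_combination -h0
    rw [h6] at h3
    have : (2 : ℂ) = 0 := by linear_combination h3
    norm_num at this
  have h7 : Complex.exp (Real.pi * Φ (Z w)) = Complex.exp (Real.pi * w) := by
    have e1 : Complex.exp (Real.pi * Φ (Z w)) * (1 - κ * T w) = 1 + κ * T w := by
      apply mul_right_cancel₀ h4
      linear_combination h1 + κ * (Complex.exp (Real.pi * Φ (Z w)) + 1) * h2
    have e2 : Complex.exp (Real.pi * w) * (1 - κ * T w) = 1 + κ * T w := by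
      linear_combination -h3
    exact mul_right_cancel₀ h5 (e1.trans e2.symm)
  have hw' := abs_lt.1 hw
  have hΦ := abs_lt.1 (Φ_im_abs hZ)
  have h8 := Complex.exp_inj_of_neg_pi_lt_of_le_pi
    (by rw [pi_mul_im]; nlinarith) (by rw [pi_mul_im]; nlinarith)
    (by rw [pi_mul_im]; nlinarith) (by rw [pi_mul_im]; nlinarith) h7
  exact mul_left_cancel₀ hpi' h8

lemma sq_mem_slitPlane {x : ℂ} (h : 0 < x.re) : x ^ 2 ∈ Complex.slitPlane := by
  rw [Complex.mem_slitPlane_iff]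
  rcases eq_or_ne x.im 0 with h0 | h0
  · left
    rw [sq, Complex.mul_re, h0]
    nlinarith
  · right
    rw [sq, Complex.mul_im]
    have : x.re * x.im ≠ 0 := mul_ne_zero h.ne' h0
    intro h1
    apply this
    linarith

lemma re_pos' {z : ℂ} (h : ‖z‖ < 1) : 0 < ((1 + z ^ 2) / (1 - z ^ 2)).re := by
  refine re_pos ?_
  rw [norm_pow]
  nlinarith [norm_nonneg z]

lemma re_pos'' {z : ℂ} (h : ‖z‖ < 1) : 0 < ((1 - z ^ 2) / (1 + z ^ 2)).re := by
  have h1 : ‖-z ^ 2‖ < 1 := by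
    rw [norm_neg, norm_pow]
    nlinarith [norm_nonneg z]
  have h2 := re_pos h1
  have h3 : (1 + -z ^ 2) / (1 - -z ^ 2) = (1 - z ^ 2) / (1 + z ^ 2) := by
    congr 1 <;> ring
  rwa [h3] at h2

lemma T_Φ {z : ℂ} (h : ‖z‖ < 1) : T (Φ z) * (1 + z ^ 2) = 2 * z := by
  have h1 := exp_pi_Φ h
  have h2 := T_rel (Φ_im_abs h)
  have h3 := exp_add_one_ne (Φ_im_abs h)
  have h4 := κ_ne
  apply mul_left_cancel₀ (mul_ne_zero h4 h3)
  linear_combination (1 + z ^ 2) * h2 + h1

lemma slit_Φ {z : ℂ} (h : ‖z‖ < 1) : 1 - T (Φ z) ^ 2 ∈ Complex.slitPlane := by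
  have h1 := T_Φ h
  have h2 := one_add_sq_ne h
  have h3 : 1 - T (Φ z) ^ 2 = ((1 - z ^ 2) / (1 + z ^ 2)) ^ 2 := by
    have : T (Φ z) = 2 * z / (1 + z ^ 2) := by
      rw [← h1]
      field_simp
    rw [this]
    field_simp
    ring
  rw [h3]
  exact sq_mem_slitPlane (re_pos'' h)

lemma Z_Φ {z : ℂ} (h : ‖z‖ < 1) : Z (Φ z) = z := by
  have h1 := T_Φ h
  have h2 := slit_Φ h
  have h3 := Z_rel h2
  have h4 := norm_Z h2
  have h5 : (Z (Φ z) - z) * (1 - z * Z (Φ z)) = 0 := by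
    have h6 := one_add_sq_ne h
    have h7 : (2 : ℂ) ≠ 0 := two_ne_zero
    apply mul_left_cancel₀ h7
    linear_combination (1 + z ^ 2) * h3 + (1 + Z (Φ z) ^ 2) * h1
  rcases mul_eq_zero.1 h5 with h8 | h8
  · exact sub_eq_zero.1 h8
  · exfalso
    have h9 : ‖z * Z (Φ z)‖ < 1 := by
      rw [norm_mul]
      nlinarith [norm_nonneg z, norm_nonneg (Z (Φ z))]
    exact one_sub_ne h9 h8

lemma differentiableAt_T {w : ℂ} (hw : |w.im| < 1) : DifferentiableAt ℂ T w := by
  unfold T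
  have h1 := exp_add_one_ne hw
  have h2 := κ_ne
  have h3 : (κ : ℂ) * (Complex.exp (Real.pi * w) + 1) ≠ 0 := mul_ne_zero h2 h1
  fun_prop (disch := assumption)

lemma differentiableAt_S {w : ℂ} (hw : |w.im| < 1) (hT : 1 - T w ^ 2 ∈ Complex.slitPlane) :
    DifferentiableAt ℂ S w := by
  have h1 := differentiableAt_T hw
  have h2 : DifferentiableAt ℂ (fun w => 1 - T w ^ 2) w := by fun_prop
  have h3 : DifferentiableAt ℂ (fun w => Complex.log (1 - T w ^ 2)) w := h2.clog hT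
  unfold S
  exact (h3.div_const 2).cexp

lemma differentiableAt_Z {w : ℂ} (hw : |w.im| < 1) (hT : 1 - T w ^ 2 ∈ Complex.slitPlane) :
    DifferentiableAt ℂ Z w := by
  have h1 := differentiableAt_T hw
  have h2 := differentiableAt_S hw hT
  have h3 := one_add_S_ne hT
  unfold Z
  exact h1.div (h2.const_add 1) h3

/-- The derivative of `Ψ ∘ Z`. -/
lemma hasDerivAt_ΨZ {w : ℂ} (hw : |w.im| < 1) (hT : 1 - T w ^ 2 ∈ Complex.slitPlane) :
    HasDerivAt (fun w => Ψ (Z w))
      (((σ / κ : ℝ) : ℂ) * ((1 + Z w ^ 2) / (1 - Z w ^ 2))) w := by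
  have hZ := norm_Z hT
  have hd := (differentiableAt_Z hw hT).hasDerivAt
  have h1 : HasDerivAt (fun w => Φ (Z w)) (dΦ (Z w) * deriv Z w) w :=
    (hasDerivAt_Φ hZ).comp w hd
  have hev : (fun w => Φ (Z w)) =ᶠ[𝓝 w] fun w => w := by
    have e1 : ∀ᶠ w' in 𝓝 w, |w'.im| < 1 :=
      (Complex.continuous_im.abs.tendsto w).eventually (gt_mem_nhds hw)
    have e2 : ∀ᶠ w' in 𝓝 w, 1 - T w' ^ 2 ∈ Complex.slitPlane := by
      have h2 : ContinuousAt (fun w => 1 - T w ^ 2) w := by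
        have := (differentiableAt_T hw).continuousAt
        fun_prop
      exact h2.eventually (Complex.isOpen_slitPlane.mem_nhds hT)
    filter_upwards [e1, e2] with w' h3 h4
    exact Φ_Z h3 h4
  have h2 : HasDerivAt (fun w => Φ (Z w)) 1 w := (hasDerivAt_id w).congr_of_eventuallyEq hev
  have h3 : dΦ (Z w) * deriv Z w = 1 := h1.unique h2
  have hD := D_ne hZ
  have hne : 1 - Z w ^ 2 ≠ 0 := one_sub_sq_ne hZ
  have hκ := κ_ne
  have hpi : (Real.pi : ℂ) ≠ 0 := by exact_mod_cast Real.pi_ne_zero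
  refine ((hasDerivAt_Ψ hZ).comp w hd).congr_deriv ?_
  have h4 : dΦ (Z w) ≠ 0 := by
    intro h0
    rw [h0, zero_mul] at h3
    exact zero_ne_one h3
  apply mul_left_cancel₀ h4
  have h5 : dΦ (Z w) * ((4 * σ / Real.pi : ℂ) * (1 + Z w ^ 2) / D (Z w) * deriv Z w)
      = (4 * σ / Real.pi : ℂ) * (1 + Z w ^ 2) / D (Z w) := by
    linear_combination ((4 * σ / Real.pi : ℂ) * (1 + Z w ^ 2) / D (Z w)) * h3
  rw [h5, dΦ]
  push_cast
  field_simp

/-- If `1 - T²` is not in the slit plane then `w` and `T` are real and `T² ≥ 1`. -/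
lemma not_slit {w : ℂ} (hw : |w.im| < 1) (hT : 1 - T w ^ 2 ∉ Complex.slitPlane) :
    w.im = 0 ∧ 1 ≤ (T w).re ^ 2 := by
  rw [Complex.mem_slitPlane_iff, not_or, not_lt, not_not] at hT
  obtain ⟨h1, h2⟩ := hT
  simp only [sq, Complex.sub_re, Complex.one_re, Complex.mul_re, Complex.sub_im, Complex.one_im,
    Complex.mul_im] at h1 h2
  have h3 : (T w).re ≠ 0 := by
    intro h0
    rw [h0] at h1
    nlinarith [mul_self_nonneg (T w).im]
  have h4 : (T w).im = 0 := by
    have : (T w).re * (T w).im = 0 := by linarith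
    exact (mul_eq_zero.1 this).resolve_left h3
  have h5 : 1 ≤ (T w).re ^ 2 := by
    rw [h4] at h1
    nlinarith
  refine ⟨?_, h5⟩
  have h6 := T_rel hw
  have hTre : T w = ((T w).re : ℂ) := Complex.ext (by simp) (by simp [h4])
  set t : ℝ := (T w).re with ht
  set q : ℂ := Complex.exp (Real.pi * w) with hq
  rw [hTre] at h6
  have h7 : (1 - κ * t) * q = 1 + κ * t := by linear_combination -h6
  have h8 : (1 - κ * t) * q.im = 0 := by
    have := congrArg Complex.im h7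
    have e : ((1 : ℂ) - κ * t) = ((1 - κ * t : ℝ) : ℂ) := by push_cast; ring
    have e' : ((1 : ℂ) + κ * t) = ((1 + κ * t : ℝ) : ℂ) := by push_cast; ring
    rw [e, e', Complex.im_ofReal_mul, Complex.ofReal_im] at this
    exact this
  have h9 : 1 - κ * t ≠ 0 := by
    intro h0
    have h10 : ((1 : ℂ) - κ * t) = 0 := by exact_mod_cast h0
    rw [h10, zero_mul] at h7
    have h11 : (2 : ℂ) = 0 := by linear_combination h10 - h7
    norm_num at h11
  have h12 : q.im = 0 := (mul_eq_zero.1 h8).resolve_left h9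
  rw [hq, Complex.exp_im, pi_mul_im] at h12
  have h13 : Real.sin (Real.pi * w.im) = 0 :=
    (mul_eq_zero.1 h12).resolve_left (Real.exp_pos _).ne'
  have hw' := abs_lt.1 hw
  have hpi := Real.pi_pos
  have h14 := (Real.sin_eq_zero_iff_of_lt_of_lt (by nlinarith) (by nlinarith)).1 h13
  exact (mul_eq_zero.1 h14).resolve_left hpi.ne'

/-- The real formula for `T`. -/
lemma T_ofReal (x : ℝ) : T x = ((1 / κ * (1 - 2 / (Real.exp (Real.pi * x) + 1)) : ℝ) : ℂ) := by
  rw [T]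
  have h1 : (Real.exp (Real.pi * x) + 1) ≠ 0 := by positivity
  have h2 : Complex.exp (Real.pi * x) = ((Real.exp (Real.pi * x) : ℝ) : ℂ) := by
    push_cast
    rfl
  rw [h2]
  have h3 : ((Real.exp (Real.pi * x) : ℝ) : ℂ) + 1 ≠ 0 := by exact_mod_cast h1
  have h4 := κ_ne
  push_cast at h3 ⊢
  field_simp
  ring

lemma injOn_f : InjOn f disk := by
  -- it is enough to exclude `Re Φ z₁ < Re Φ z₂`
  have key : ∀ z₁ ∈ disk, ∀ z₂ ∈ disk, f z₁ = f z₂ → ¬ (Φ z₁).re < (Φ z₂).re := by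
    intro z₁ hz₁ z₂ hz₂ hf hlt
    rw [disk, mem_ball_zero_iff] at hz₁ hz₂
    have him : (Φ z₁).im = (Φ z₂).im := by rw [← f_im, ← f_im, hf]
    have hre : (Ψ z₁).re = (Ψ z₂).re := by rw [← f_re, ← f_re, hf]
    set w₁ := Φ z₁ with hw₁
    set w₂ := Φ z₂ with hw₂
    set δ : ℝ := w₂.re - w₁.re with hδ
    have hδ0 : 0 < δ := by linarith
    have hw₁im : |w₁.im| < 1 := Φ_im_abs hz₁
    have himτ : ∀ τ : ℝ, (w₁ + τ * δ).im = w₁.im := by
      intro τ
      simp
    have hreτ : ∀ τ : ℝ, (w₁ + τ * δ).re = w₁.re + τ * δ := by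
      intro τ
      simp
    have hend : w₁ + (1 : ℝ) * δ = w₂ := by
      apply Complex.ext
      · rw [hreτ]
        rw [hδ]
        ring
      · rw [himτ, him]
    have hslit : ∀ τ : ℝ, 0 ≤ τ → τ ≤ 1 → 1 - T (w₁ + τ * δ) ^ 2 ∈ Complex.slitPlane := by
      intro τ h0 h1
      by_contra hcon
      obtain ⟨e1, e2⟩ := not_slit (by rw [himτ]; exact hw₁im) hcon
      rw [himτ] at e1
      have r1 : w₁ = ((w₁.re : ℝ) : ℂ) := Complex.ext (by simp) (by simp [e1])
      have r2 : w₂ = ((w₂.re : ℝ) : ℂ) := Complex.ext (by simp) (by simp [← him, e1])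
      have r3 : w₁ + τ * δ = ((w₁.re + τ * δ : ℝ) : ℂ) := by
        nth_rw 1 [r1]
        push_cast
        ring
      rw [r3, T_ofReal, Complex.ofReal_re] at e2
      have s1 := slit_Φ hz₁
      have s2 := slit_Φ hz₂
      rw [← hw₁, r1, T_ofReal] at s1
      rw [← hw₂, r2, T_ofReal] at s2
      have hpos : ∀ y : ℝ, 1 - (y : ℂ) ^ 2 ∈ Complex.slitPlane → y ^ 2 < 1 := by
        intro y hy
        have e : 1 - (y : ℂ) ^ 2 = ((1 - y ^ 2 : ℝ) : ℂ) := by push_cast; ring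
        rw [e, Complex.ofReal_mem_slitPlane] at hy
        linarith
      have t1 := hpos _ s1
      have t2 := hpos _ s2
      have hκ := κσ_pos.1
      have hmono : ∀ x y : ℝ, x ≤ y → 1 / κ * (1 - 2 / (Real.exp (Real.pi * x) + 1))
          ≤ 1 / κ * (1 - 2 / (Real.exp (Real.pi * y) + 1)) := by
        intro x y hxy
        refine mul_le_mul_of_nonneg_left ?_ (by positivity)
        have h5 : Real.exp (Real.pi * x) ≤ Real.exp (Real.pi * y) :=
          Real.exp_le_exp.2 (mul_le_mul_of_nonneg_left hxy Real.pi_pos.le)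
        have h6 : 2 / (Real.exp (Real.pi * y) + 1) ≤ 2 / (Real.exp (Real.pi * x) + 1) :=
          div_le_div_of_nonneg_left (by norm_num) (by positivity) (by linarith)
        linarith
      have m1 := hmono w₁.re (w₁.re + τ * δ) (by nlinarith)
      have m2 := hmono (w₁.re + τ * δ) w₂.re (by nlinarith)
      have a1 := (sq_lt_one_iff_abs_lt_one _).1 t1
      have a2 := (sq_lt_one_iff_abs_lt_one _).1 t2
      rw [abs_lt] at a1 a2
      nlinarith
    have hder : ∀ τ : ℝ, 0 ≤ τ → τ ≤ 1 → ∃ d : ℝ, 0 < d ∧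
        HasDerivAt (fun τ : ℝ => (Ψ (Z (w₁ + τ * δ))).re) d τ := by
      intro τ h0 h1
      have hs := hslit τ h0 h1
      have hwτ : |(w₁ + (τ : ℂ) * δ).im| < 1 := by rw [himτ]; exact hw₁im
      have e1 := hasDerivAt_ΨZ hwτ hs
      have e2 : HasDerivAt (fun ζ : ℂ => w₁ + ζ * δ) (δ : ℂ) (τ : ℂ) := by
        simpa using ((hasDerivAt_id (τ : ℂ)).mul_const (δ : ℂ)).const_add w₁
      have e3 := (e1.comp (τ : ℂ) e2).real_of_complex
      refine ⟨_, ?_, e3⟩
      have hκσ := κσ_pos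
      have e4 := re_pos' (norm_Z hs)
      rw [Complex.re_mul_ofReal, Complex.re_ofReal_mul]
      exact mul_pos (mul_pos (div_pos hκσ.2 hκσ.1) e4) hδ0
    have hmono : StrictMonoOn (fun τ : ℝ => (Ψ (Z (w₁ + τ * δ))).re) (Icc 0 1) := by
      refine strictMonoOn_of_deriv_pos (convex_Icc 0 1) ?_ ?_
      · intro τ hτ
        obtain ⟨d, _, hd⟩ := hder τ hτ.1 hτ.2
        exact hd.continuousAt.continuousWithinAt
      · intro τ hτ
        rw [interior_Icc] at hτ
        obtain ⟨d, hd0, hd⟩ := hder τ hτ.1.le hτ.2.le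
        rw [hd.deriv]
        exact hd0
    have h01 := hmono (left_mem_Icc.2 zero_le_one) (right_mem_Icc.2 zero_le_one) zero_lt_one
    simp only at h01
    rw [hend] at h01
    rw [show w₁ + ((0 : ℝ) : ℂ) * δ = w₁ by push_cast; ring] at h01
    rw [hw₁, hw₂, Z_Φ hz₁, Z_Φ hz₂] at h01
    linarith
  intro z₁ hz₁ z₂ hz₂ hf
  have h1 := key z₁ hz₁ z₂ hz₂ hf
  have h2 := key z₂ hz₂ z₁ hz₁ hf.symm
  have h3 : (Φ z₁).re = (Φ z₂).re := le_antisymm (not_lt.1 h2) (not_lt.1 h1)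
  have h4 : (Φ z₁).im = (Φ z₂).im := by rw [← f_im, ← f_im, hf]
  have h5 : Φ z₁ = Φ z₂ := Complex.ext h3 h4
  rw [disk, mem_ball_zero_iff] at hz₁ hz₂
  rw [← Z_Φ hz₁, ← Z_Φ hz₂, h5]

lemma isHarmonic_f : IsHarmonicUnivalentSelfMap f := by
  refine ⟨H, G, ?_, ?_, fun z _ => rfl, ?_, injOn_f, ?_⟩
  · intro z hz
    exact (hasDerivAt_H (mem_ball_zero_iff.1 hz)).differentiableAt.differentiableWithinAt
  · intro z hz
    exact (hasDerivAt_G (mem_ball_zero_iff.1 hz)).differentiableAt.differentiableWithinAt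
  · intro z hz
    have hz' := mem_ball_zero_iff.1 hz
    rw [(hasDerivAt_H hz').deriv, (hasDerivAt_G hz').deriv, jac_identity, J_eq]
    exact J_pos hz'
  · intro z hz
    exact mem_ball_zero_iff.2 (norm_f (mem_ball_zero_iff.1 hz))

/-! ### Areas -/

/-- The real-linear map `v ↦ a v + conj (b v)`. -/
noncomputable def lin (a b : ℂ) : ℂ →L[ℝ] ℂ :=
  (a • (1 : ℂ →L[ℝ] ℂ)) + Complex.conjCLE.toContinuousLinearMap.comp (b • (1 : ℂ →L[ℝ] ℂ))

lemma lin_apply (a b v : ℂ) : lin a b v = a * v + conj (b * v) := by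
  simp [lin]

lemma det_lin (a b : ℂ) : (lin a b).det = ‖a‖ ^ 2 - ‖b‖ ^ 2 := by
  have h1 : (lin a b).det = LinearMap.det ((lin a b : ℂ →L[ℝ] ℂ) : ℂ →ₗ[ℝ] ℂ) := rfl
  rw [h1, ← LinearMap.det_toMatrix Complex.basisOneI, Matrix.det_fin_two]
  simp only [LinearMap.toMatrix_apply, Complex.coe_basisOneI_repr, Complex.coe_basisOneI]
  simp only [Matrix.cons_val_zero, Matrix.cons_val_one, ContinuousLinearMap.coe_coe, lin_apply]
  rw [← Complex.normSq_eq_norm_sq, ← Complex.normSq_eq_norm_sq, Complex.normSq_apply,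
    Complex.normSq_apply]
  simp
  ring

lemma hasFDerivAt_f {z : ℂ} (h : ‖z‖ < 1) :
    HasFDerivAt f (lin ((dΨ z + dΦ z) / 2) ((dΨ z - dΦ z) / 2)) z := by
  have h1 := ((hasDerivAt_H h).hasFDerivAt.restrictScalars ℝ)
  have h2 := ((hasDerivAt_G h).hasFDerivAt.restrictScalars ℝ)
  have h3 := (Complex.conjCLE.toContinuousLinearMap.hasFDerivAt (x := G z)).comp z h2
  refine (h1.add h3).congr_fderiv ?_
  ext v
  simp [lin_apply, mul_comm]

lemma det_f (z : ℂ) : (lin ((dΨ z + dΦ z) / 2) ((dΨ z - dΦ z) / 2)).det = J z := by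
  rw [det_lin, jac_identity, J_eq]

/-- The squared modulus of the derivative of the automorphism with parameter `a`. -/
noncomputable def P (a z : ℂ) : ℝ := (1 - Complex.normSq a) ^ 2 / Complex.normSq (1 - conj a * z) ^ 2

lemma hasFDerivAt_aut {θ : ℝ} {a z : ℂ} (ha : ‖a‖ < 1) (hz : ‖z‖ < 1) :
    HasFDerivAt (fun z => Complex.exp (θ * Complex.I) * ((z - a) / (1 - conj a * z)))
      (lin (Complex.exp (θ * Complex.I) * ((1 - Complex.normSq a : ℝ) / (1 - conj a * z) ^ 2)) 0)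
      z := by
  have hne : 1 - conj a * z ≠ 0 := by
    refine one_sub_ne ?_
    rw [norm_mul, Complex.norm_conj]
    nlinarith [norm_nonneg a, norm_nonneg z]
  have h1 : HasDerivAt (fun z : ℂ => z - a) 1 z := (hasDerivAt_id z).sub_const a
  have h2 : HasDerivAt (fun z : ℂ => 1 - conj a * z) (-conj a) z := by
    simpa using ((hasDerivAt_id z).const_mul (conj a)).const_sub 1
  have h3 := ((h1.div h2 hne).const_mul (Complex.exp (θ * Complex.I))).hasFDerivAt.restrictScalars ℝ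
  refine h3.congr_fderiv ?_
  ext v
  simp only [lin_apply, zero_mul, map_zero, add_zero]
  simp only [ContinuousLinearMap.coe_restrictScalars', ContinuousLinearMap.toSpanSingleton_apply,
    smul_eq_mul]
  rw [mul_comm v]
  congr 3
  push_cast
  rw [Complex.normSq_eq_conj_mul_self]
  ring

lemma det_aut {θ : ℝ} {a z : ℂ} :
    (lin (Complex.exp (θ * Complex.I) * ((1 - Complex.normSq a : ℝ) / (1 - conj a * z) ^ 2)) 0).det
      = P a z := by
  rw [det_lin, norm_mul, Complex.norm_exp_ofReal_mul_I, one_mul, norm_zero, norm_div, norm_pow,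
    Complex.norm_real, P, Complex.normSq_eq_norm_sq (1 - conj a * z)]
  rw [div_pow, Real.norm_eq_abs, sq_abs]
  ring

/-- The bound for automorphisms at two opposite points. -/
noncomputable def B (z : ℂ) : ℝ :=
  (1 + 16 * ((1 - Complex.normSq z) / (1 + Complex.normSq z)) ^ 4) / (1 - Complex.normSq z) ^ 2

lemma P_add_P_neg {a z : ℂ} (ha : ‖a‖ < 1) (hz : ‖z‖ < 1) : P a z + P a (-z) ≤ B z := by
  have hA := normSq_lt ha
  have hA0 := Complex.normSq_nonneg a
  have hZ := normSq_lt hz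
  have hZ0 := Complex.normSq_nonneg z
  have hconj : ‖conj a * z‖ < 1 := by
    rw [norm_mul, Complex.norm_conj]
    nlinarith [norm_nonneg a, norm_nonneg z]
  have n1 : 0 < Complex.normSq (1 - conj a * z) := Complex.normSq_pos.2 (one_sub_ne hconj)
  have n2 : 0 < Complex.normSq (1 + conj a * z) := Complex.normSq_pos.2 (one_add_ne hconj)
  -- the two basic identities
  have i1 : Complex.normSq (1 - conj a * z)
      = (1 - Complex.normSq a) * (1 - Complex.normSq z) + Complex.normSq (z - a) := by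
    simp only [Complex.normSq_apply, Complex.sub_re, Complex.sub_im, Complex.one_re,
      Complex.one_im, Complex.mul_re, Complex.mul_im, Complex.conj_re, Complex.conj_im]
    ring
  have i2 : Complex.normSq (1 + conj a * z)
      = (1 - Complex.normSq a) * (1 - Complex.normSq z) + Complex.normSq (z + a) := by
    simp only [Complex.normSq_apply, Complex.add_re, Complex.add_im, Complex.one_re,
      Complex.one_im, Complex.mul_re, Complex.mul_im, Complex.conj_re, Complex.conj_im]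
    ring
  set A := Complex.normSq a with hAdef
  set Zn := Complex.normSq z with hZdef
  set X := (1 - A) * (1 - Zn) / Complex.normSq (1 - conj a * z) with hX
  set Y := (1 - A) * (1 - Zn) / Complex.normSq (1 + conj a * z) with hY
  have hnum : 0 ≤ (1 - A) * (1 - Zn) := mul_nonneg (by linarith) (by linarith)
  have hX0 : 0 ≤ X := div_nonneg hnum n1.le
  have hY0 : 0 ≤ Y := div_nonneg hnum n2.le
  have hX1 : X ≤ 1 := by
    rw [hX, div_le_one n1, i1]
    linarith [Complex.normSq_nonneg (z - a)]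
  have hY1 : Y ≤ 1 := by
    rw [hY, div_le_one n2, i2]
    linarith [Complex.normSq_nonneg (z + a)]
  -- the product
  have hprod : Complex.normSq (1 - conj a * z) * Complex.normSq (1 + conj a * z)
      = ‖1 - (conj a * z) ^ 2‖ ^ 2 := by
    rw [← Complex.normSq_mul, Complex.normSq_eq_norm_sq]
    congr 2
    ring
  have hnorm : 1 - A * Zn ≤ ‖1 - (conj a * z) ^ 2‖ := by
    have h1 := norm_sub_norm_le (1 : ℂ) ((conj a * z) ^ 2)
    rw [norm_one, norm_pow, norm_mul, Complex.norm_conj, mul_pow, ← Complex.normSq_eq_norm_sq,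
      ← Complex.normSq_eq_norm_sq] at h1
    exact h1
  have hXY : X * Y ≤ 4 * ((1 - Zn) / (1 + Zn)) ^ 2 := by
    have e1 : X * Y = ((1 - A) * (1 - Zn)) ^ 2 / ‖1 - (conj a * z) ^ 2‖ ^ 2 := by
      rw [hX, hY, div_mul_div_comm, hprod]
      congr 1
      ring
    have e2 : (1 - A) * (1 + Zn) ≤ 2 * ‖1 - (conj a * z) ^ 2‖ := by
      nlinarith
    have hpos : 0 < ‖1 - (conj a * z) ^ 2‖ := by nlinarith
    rw [e1, div_pow, ← mul_div_assoc, div_le_div_iff₀ (by positivity) (by positivity)]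
    have e3 : ((1 - A) * (1 + Zn)) ^ 2 ≤ (2 * ‖1 - (conj a * z) ^ 2‖) ^ 2 :=
      pow_le_pow_left₀ (mul_nonneg (by linarith) (by linarith)) e2 2
    have e4 := mul_le_mul_of_nonneg_left e3 (sq_nonneg (1 - Zn))
    nlinarith
  have hXY0 : 0 ≤ X * Y := mul_nonneg hX0 hY0
  have hsum : X ^ 2 + Y ^ 2 ≤ 1 + 16 * ((1 - Zn) / (1 + Zn)) ^ 4 := by
    have e1 : X ^ 2 + Y ^ 2 ≤ 1 + (X * Y) ^ 2 := by
      have h1 : 0 ≤ (1 - X ^ 2) * (1 - Y ^ 2) :=
        mul_nonneg (by nlinarith) (by nlinarith)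
      nlinarith
    have e2 : (X * Y) ^ 2 ≤ (4 * ((1 - Zn) / (1 + Zn)) ^ 2) ^ 2 := pow_le_pow_left₀ hXY0 hXY 2
    have e3 : (4 * ((1 - Zn) / (1 + Zn)) ^ 2) ^ 2 = 16 * ((1 - Zn) / (1 + Zn)) ^ 4 := by ring
    linarith
  have hZpos : 0 < 1 - Zn := by linarith
  have e1 : P a z + P a (-z) = (X ^ 2 + Y ^ 2) / (1 - Zn) ^ 2 := by
    have e5 : (1 : ℂ) - conj a * -z = 1 + conj a * z := by ring
    rw [P, P, e5, hX, hY, ← hAdef]
    field_simp
  rw [e1, B, ← hZdef]
  exact div_le_div_of_nonneg_right hsum (by positivity)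

/-- The numerical comparison at `5/6`. -/
lemma numeric : B ((5 / 6 : ℝ) : ℂ) < 2 * J ((5 / 6 : ℝ) : ℂ) := by
  have hD : D ((5 / 6 : ℝ) : ℂ)
      = (((1 + (5 / 6) ^ 2) ^ 2 - 4 * (399 / 401) ^ 2 * (5 / 6) ^ 2 : ℝ) : ℂ) := by
    rw [D_eq, κ]
    push_cast
    ring
  rw [B, J, hD, Complex.normSq_ofReal, Complex.normSq_ofReal, κ, σ]
  have hpi : Real.pi ^ 2 < 9.9225 := by
    have := Real.pi_lt_d2
    have := Real.pi_pos
    nlinarith
  have hpi0 : 0 < Real.pi ^ 2 := by positivity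
  have e : 2 * (16 * (399 / 401) * (40 / 401) / Real.pi ^ 2 * (1 - (5 / 6 * (5 / 6)) ^ 2) /
        (((1 + (5 / 6) ^ 2) ^ 2 - 4 * (399 / 401) ^ 2 * (5 / 6) ^ 2) *
          ((1 + (5 / 6) ^ 2) ^ 2 - 4 * (399 / 401) ^ 2 * (5 / 6) ^ 2)))
      = (32 * (399 / 401) * (40 / 401) * (1 - (5 / 6 * (5 / 6)) ^ 2) /
        (((1 + (5 / 6) ^ 2) ^ 2 - 4 * (399 / 401) ^ 2 * (5 / 6) ^ 2) *
          ((1 + (5 / 6) ^ 2) ^ 2 - 4 * (399 / 401) ^ 2 * (5 / 6) ^ 2))) / Real.pi ^ 2 := by
    ring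
  rw [e, lt_div_iff₀ hpi0]
  norm_num
  linarith

/-- **There is a measurable set whose maximal area distortion among the sense-preserving univalent
harmonic self-mappings of the disk is not attained by a conformal automorphism**; a single harmonic
map beats all automorphisms. -/
theorem result : ∃ E ⊆ disk, MeasurableSet E ∧ ∃ f : ℂ → ℂ, IsHarmonicUnivalentSelfMap f ∧
    ∀ φ, IsAutomorphism φ → volume (φ '' E) < volume (f '' E) := by
  obtain ⟨c₁, hc₁, hc₂⟩ := exists_between numeric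
  obtain ⟨c₂, hc₃, hc₄⟩ := exists_between hc₂
  set p : ℂ := ((5 / 6 : ℝ) : ℂ) with hp
  have hpn : ‖p‖ < 1 := by
    rw [hp, Complex.norm_real]
    norm_num
  have hc1pos : 0 < c₁ := by
    refine lt_of_le_of_lt ?_ hc₁
    unfold B
    positivity
  -- continuity
  have hcB : ContinuousAt B p := by
    unfold B
    have h1 := Complex.normSq_nonneg p
    have h2 : (1 - Complex.normSq p) ^ 2 ≠ 0 := by
      have := normSq_lt hpn
      have : 0 < 1 - Complex.normSq p := by linarith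
      positivity
    have h3 : (1 + Complex.normSq p) ≠ 0 := by positivity
    have h4 := Complex.continuous_normSq.continuousAt (x := p)
    exact ((continuousAt_const.add (continuousAt_const.mul
      (((continuousAt_const.sub h4).div (continuousAt_const.add h4) h3).pow 4))).div
      ((continuousAt_const.sub h4).pow 2) h2)
  have hcJ : ContinuousAt J p := by
    unfold J
    have h2 : Complex.normSq (D p) ≠ 0 := (Complex.normSq_pos.2 (D_ne hpn)).ne'
    have h4 := Complex.continuous_normSq.continuousAt (x := p)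
    have h5 : Continuous fun z => Complex.normSq (D z) := by
      refine Complex.continuous_normSq.comp ?_
      unfold D
      fun_prop
    exact (continuousAt_const.mul (continuousAt_const.sub (h4.pow 2))).div h5.continuousAt h2
  have hev : ∀ᶠ z in 𝓝 p, B z < c₁ ∧ c₂ < 2 * J z ∧ ‖z‖ < 1 ∧ 0 < z.re := by
    have e1 : ∀ᶠ z in 𝓝 p, B z < c₁ := hcB.eventually (gt_mem_nhds hc₁)
    have e2 : ∀ᶠ z in 𝓝 p, c₂ < 2 * J z :=
      (continuousAt_const.mul hcJ).eventually (lt_mem_nhds hc₄)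
    have e3 : ∀ᶠ z in 𝓝 p, ‖z‖ < 1 := continuous_norm.continuousAt.eventually (gt_mem_nhds hpn)
    have e4 : ∀ᶠ z in 𝓝 p, 0 < z.re := by
      refine Complex.continuous_re.continuousAt.eventually (lt_mem_nhds ?_)
      rw [hp, Complex.ofReal_re]
      norm_num
    filter_upwards [e1, e2, e3, e4] with z h1 h2 h3 h4
    exact ⟨h1, h2, h3, h4⟩
  obtain ⟨r, hr0, hr⟩ := Metric.eventually_nhds_iff_ball.1 hev
  set U : Set ℂ := ball p r with hU
  have hUm : MeasurableSet U := measurableSet_ball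
  set V : Set ℂ := (fun z : ℂ => -z) ⁻¹' U with hV
  have hVm : MeasurableSet V := measurable_neg hUm
  have hdisj : Disjoint U V := by
    rw [Set.disjoint_left]
    intro z h1 h2
    have h3 := (hr z h1).2.2.2
    have h4 := (hr (-z) h2).2.2.2
    rw [Complex.neg_re] at h4
    linarith
  have hVvol : volume V = volume U :=
    (Measure.measurePreserving_neg (volume : Measure ℂ)).measure_preimage hUm.nullMeasurableSet
  have hE : ∀ z ∈ U ∪ V, ‖z‖ < 1 := by
    rintro z (h1 | h1)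
    · exact (hr z h1).2.2.1
    · have := (hr (-z) h1).2.2.1
      rwa [norm_neg] at this
  have hEm : MeasurableSet (U ∪ V) := hUm.union hVm
  have hJneg : ∀ z, J (-z) = J z := by
    intro z
    rw [J, J, Complex.normSq_neg, D, D]
    congr 3 <;> ring
  refine ⟨U ∪ V, fun z hz => mem_ball_zero_iff.2 (hE z hz), hEm, f, isHarmonic_f, ?_⟩
  rintro φ ⟨θ, a, ha, hφ⟩
  have hφ' : φ = fun z => Complex.exp (θ * Complex.I) * ((z - a) / (1 - conj a * z)) :=
    funext hφ
  -- the area of the image under `f`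
  have hlow : ENNReal.ofReal c₂ * volume U ≤ volume (f '' (U ∪ V)) := by
    rw [← lintegral_abs_det_fderiv_eq_addHaar_image volume hEm
      (fun z hz => (hasFDerivAt_f (hE z hz)).hasFDerivWithinAt)
      (injOn_f.mono fun z hz => mem_ball_zero_iff.2 (hE z hz))]
    simp only [det_f]
    have h1 : ∀ z ∈ U ∪ V, ENNReal.ofReal (c₂ / 2) ≤ ENNReal.ofReal |J z| := by
      intro z hz
      refine ENNReal.ofReal_le_ofReal ?_
      rw [abs_of_pos (J_pos (hE z hz))]
      rcases hz with h1 | h1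
      · linarith [(hr z h1).2.1]
      · have := (hr (-z) h1).2.1
        rw [hJneg] at this
        linarith
    have hc2 : 0 ≤ c₂ := by linarith
    calc ENNReal.ofReal c₂ * volume U
        = ENNReal.ofReal (c₂ / 2) * volume (U ∪ V) := by
          rw [measure_union hdisj hVm, hVvol, ← two_mul, ← mul_assoc]
          congr 1
          rw [mul_comm, show (2 : ℝ≥0∞) = ENNReal.ofReal 2 by simp,
            ← ENNReal.ofReal_mul (by norm_num)]
          congr 1
          ring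
      _ = ∫⁻ _ in U ∪ V, ENNReal.ofReal (c₂ / 2) := by rw [setLIntegral_const]
      _ ≤ ∫⁻ z in U ∪ V, ENNReal.ofReal |J z| := setLIntegral_mono' hEm h1
  -- the area of the image under `φ`
  have hup : volume (φ '' (U ∪ V)) ≤ ENNReal.ofReal c₁ * volume U := by
    have h1 : volume (φ '' (U ∪ V)) ≤ ∫⁻ z in U ∪ V, ENNReal.ofReal |P a z| := by
      have h2 := addHaar_image_le_lintegral_abs_det_fderiv volume (f := φ) hEm
        (fun z hz => by
          rw [hφ']
          exact (hasFDerivAt_aut (θ := θ) ha (hE z hz)).hasFDerivWithinAt)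
      simpa only [det_aut] using h2
    have hP0 : ∀ z, 0 ≤ P a z := by
      intro z
      unfold P
      positivity
    have hPm : Measurable (P a) := by
      unfold P
      have : Continuous fun z : ℂ => Complex.normSq (1 - conj a * z) :=
        Complex.continuous_normSq.comp (by fun_prop)
      exact measurable_const.div (this.measurable.pow_const 2)
    refine h1.trans ?_
    rw [lintegral_union hVm hdisj]
    have h3 : ∫⁻ z in V, ENNReal.ofReal |P a z| = ∫⁻ z in U, ENNReal.ofReal |P a (-z)| := by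
      have := (Measure.measurePreserving_neg (volume : Measure ℂ)).setLIntegral_comp_preimage
        (s := U) (f := fun z => ENNReal.ofReal |P a (-z)|) hUm (by fun_prop)
      simp only [neg_neg] at this
      rw [← this]
    rw [h3, ← lintegral_add_left (by fun_prop)]
    calc ∫⁻ z in U, (ENNReal.ofReal |P a z| + ENNReal.ofReal |P a (-z)|)
        ≤ ∫⁻ _ in U, ENNReal.ofReal c₁ := by
          refine setLIntegral_mono' hUm fun z hz => ?_
          rw [← ENNReal.ofReal_add (abs_nonneg _) (abs_nonneg _), abs_of_nonneg (hP0 _),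
            abs_of_nonneg (hP0 _)]
          exact ENNReal.ofReal_le_ofReal
            ((P_add_P_neg ha (hr z hz).2.2.1).trans (hr z hz).1.le)
      _ = ENNReal.ofReal c₁ * volume U := by rw [setLIntegral_const]
  refine lt_of_le_of_lt hup (lt_of_lt_of_le ?_ hlow)
  have hU0 : volume U ≠ 0 := (measure_ball_pos volume p hr0).ne'
  have hUt : volume U ≠ ⊤ := measure_ball_lt_top.ne
  rw [ENNReal.mul_lt_mul_iff_left hU0 hUt]
  exact (ENNReal.ofReal_lt_ofReal_iff_of_nonneg hc1pos.le).2 hc₃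

end Pool.Agent.Results.MP_6004b5_an.HarmonicArea
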